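import Pool.Agent.K1H75.KR.Main

/-!
MP_b6945b_al (the Knörr–Robinson conjecture): reduction to groups all of whose abelian normal subgroups are
central and contained in a cyclic centre, and which are not central products.

Notation (`Pool/Agent/Y63/KR/Defs.lean`, `Pool/Agent/Y63/KR/Levels.lean`, `Pool/Agent/Y63/NV/Main.lean`).
* `KRC p H` says `χ₂(S, H) = k(H) - z_p(H)`, `S` the poset of the nontrivial `p`-subgroups of `H`;
* `Closed p X`: the class `X` of groups is closed under isomorphisms, subgroups and quotients by normal
  `p`-subgroups.

The library theorem `Pool.Agent.Y63.NV.krc_strong` (the starting file `PExtensions`) reduces the conjecture to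
groups without normal subgroups of index `p` and without nontrivial normal `p`-subgroups (the first two
conditions below). It is used here, as well as the description of both sides of the conjecture by commuting
pairs and by surface groups (`Pool.Agent.Y63.KR`). New are the four other conditions below.

Idea of the proof. For `z` in a central `p'`-subgroup of `H` let `A(z)` be the sum over the pairs `(x, y)` with
`x y x⁻¹ y⁻¹ = z` of the numbers `- χ̃` of the posets of the nontrivial `p`-subgroups normalised by `x` and `y`,
and let `N_g(z)` be the number of `2g`-tuples with `∏ [a_i, b_i] = z`. The conjecture for `H` says that the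
`N_g(1)` tend `p`-adically to `A(1)` if `g - 1 = p^N (p - 1)` and `N` tends to infinity, and the conjecture for
the quotient by a central `p'`-subgroup `M` says the same for the sums over the elements of `M`. Both sides are
multiplicative for direct products, vanish outside the commutator subgroup and depend on the group generated by
`z` only. If `N` is an abelian normal `p'`-subgroup of `H`, then both sides for `H` are the sums of the same
quantities, weighted by the values of the character, for the quotients `T/K` of the stabilisers `T` of the
characters of `N` by their kernels `K`.
-/

set_option autoImplicit false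

namespace Pool.Agent.Results.MP_b6945b_al.CentralReduction

open Pool.Agent.Y63.KR (KRC)
open Pool.Agent.Y63.NV (Closed)

/-- The groups to which the conjecture is reduced. -/
structure CentrallyReduced (p : ℕ) (H : Type) [Group H] : Prop where
  /-- there are no normal subgroups of index `p` -/
  perfect : ∀ N : Subgroup H, N.Normal → N.index ≠ p
  /-- there are no nontrivial normal `p`-subgroups -/
  radical : ∀ M : Subgroup H, M.Normal → IsPGroup p M → M = ⊥
  /-- every abelian normal subgroup is central -/
  abelian : ∀ A : Subgroup H, A.Normal → (∀ a ∈ A, ∀ b ∈ A, a * b = b * a) → A ≤ Subgroup.center H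
  /-- the centre is cyclic -/
  cyclic : IsCyclic (Subgroup.center H)
  /-- every nontrivial central subgroup meets the commutator subgroup nontrivially -/
  focal : ∀ N : Subgroup H, N ≤ Subgroup.center H → N ⊓ commutator H = ⊥ → N = ⊥
  /-- the group is not a central product of two proper subgroups -/
  indec : ∀ A B : Subgroup H, (∀ a ∈ A, ∀ b ∈ B, a * b = b * a) → A ⊔ B = ⊤ → A = ⊤ ∨ B = ⊤

/-- the class `X` is closed under direct products with finite cyclic `p'`-groups -/
def CyclicProducts (p : ℕ) (X : ∀ (H : Type) [Group H], Prop) : Prop :=
  ∀ (G C : Type) [Group G] [CommGroup C] [Finite C], X G → IsCyclic C → ¬ p ∣ Nat.card C → X (G × C)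

/-- **Reduction of the Knörr–Robinson conjecture.** Let `X` be a class of groups which is closed under
isomorphisms, subgroups, quotients by normal `p`-subgroups and quotients by abelian normal `p'`-subgroups (for
example the class of all groups). The conjecture holds at `p` for all finite groups `Γ` with a normal subgroup
`G` in `X` such that `Γ/G` is a `p`-group if (and only if) it holds for the finite groups `H` in `X` with the
following properties:

* `H` has no normal subgroups of index `p` and no nontrivial normal `p`-subgroups;
* every abelian normal subgroup of `H` is central, and the centre of `H` is cyclic;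
* every nontrivial central subgroup of `H` meets the commutator subgroup nontrivially;
* `H` is not a central product of two proper subgroups;
* the centre of `H` is contained in the commutator subgroup, provided that `X` is closed under direct products
  with finite cyclic `p'`-groups. -/
theorem result (p : ℕ) [Fact p.Prime] (X : ∀ (H : Type) [Group H], Prop) (hX : Closed p X)
    (hq : ∀ (G : Type) [Group G], X G → ∀ (M : Subgroup G) [M.Normal],
      (∀ a ∈ M, ∀ b ∈ M, a * b = b * a) → ¬ p ∣ Nat.card M → X (G ⧸ M)) :
    (∀ (H : Type) [Group H] [Finite H], X H → CentrallyReduced p H →
      (CyclicProducts p X → Subgroup.center H ≤ commutator H) → KRC p H) ↔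
    ∀ (Γ : Type) [Group Γ] [Finite Γ] (G : Subgroup Γ) [G.Normal], X G → IsPGroup p (Γ ⧸ G) →
      KRC p Γ := by
  have e : ∀ (H : Type) [Group H], CentrallyReduced p H ↔ Pool.Agent.K1H75.KR.CentrallyReduced p H :=
    fun H _ => ⟨fun h => ⟨h.perfect, h.radical, h.abelian, h.cyclic, h.focal, h.indec⟩,
      fun h => ⟨h.perfect, h.radical, h.abelian, h.cyclic, h.focal, h.indec⟩⟩
  simp only [e]
  by_cases hc : CyclicProducts p X
  · simp only [hc, true_implies]
    exact Pool.Agent.K1H75.KR.main_stem p X hX hq hc
  · simp only [hc, false_implies, true_implies]
    exact Pool.Agent.K1H75.KR.main p X hX hq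

end Pool.Agent.Results.MP_b6945b_al.CentralReduction
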