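import Pool.Agent.K1H2.KR.Coarse

/-!
MP_b6945b_al (the Knörr–Robinson conjecture).

Notation. `chi2 p G`, `KRC p G` (`Pool/Agent/Y63/KR/Levels.lean`), `numDefectZero p G`
(`Pool/Agent/Y63/AWC/Defs.lean`) and `krDiff p G = k(G) - χ₂(S, G) - z_p(G)`
(`Pool/Agent/R674/Ce/Fin.lean`) are those of the starting files. In `Pool.Agent.K1H2.KR`:
* `WrC q G` is the wreath product of `G` with a cyclic group of order `q`;
* `PowClosed q X`: the class `X` contains, with `H`, all powers `H^n`, `H ≀ C_2` and `H ≀ C_q`;
* `Coarse p X`: for every `ε > 0` there is `C` such that, for the finite groups `G` in `X`,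
  `|χ̃₂(S, G)| ≤ C |G|^ε (1 + z_p(G))` and `z_p(G) ≤ C |G|^ε (1 + |χ̃₂(S, G)|)`, where
  `-χ̃₂(S, G) = k(G) - χ₂(S, G)`;
* `CoarseDiff p X`: for every `ε > 0` there is `C` such that `|krDiff p G| ≤ C |G|^ε` for the finite
  groups `G` in `X`.
-/

open scoped Classical

namespace Pool.Agent.Results.MP_b6945b_al.Coarse

open Pool.Agent.K1H2.KR
open Pool.Agent.Y63.KR (KRC)

/-- **An approximate form of the Knörr–Robinson conjecture implies the exact one.** Let `p` be a
prime, `q ≠ p` an odd prime and `X` a class of groups closed under powers and under wreath products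
with `C_2` and `C_q` (for example all groups). The following are equivalent:
* all finite groups in `X` satisfy the Knörr–Robinson conjecture at `p`;
* for the finite groups `G` in `X`, the difference of the two sides is `|G|^o(1)`;
* for the finite groups `G` in `X`, the two sides have the same size up to factors `|G|^o(1)`. -/
theorem result (p q : ℕ) [Fact p.Prime] [Fact q.Prime] (hq2 : q ≠ 2) (hqp : q ≠ p)
    (X : ∀ (H : Type) [Group H], Prop) (hX : PowClosed q X) :
    ((∀ (G : Type) [Group G] [Finite G], X G → KRC p G) ↔ CoarseDiff p X) ∧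
    ((∀ (G : Type) [Group G] [Finite G], X G → KRC p G) ↔ Coarse p X) ∧
    PowClosed q (fun _ _ => True) :=
  ⟨⟨diff_of_krc, fun h G _ _ hG => krc_of_coarse hq2 hqp hX (coarse_of_diff h) G hG⟩,
    ⟨fun h => coarse_of_diff (diff_of_krc h), fun h G _ _ hG => krc_of_coarse hq2 hqp hX h G hG⟩,
    ⟨fun _ _ _ _ => trivial, fun _ _ _ => trivial, fun _ _ _ => trivial⟩⟩

end Pool.Agent.Results.MP_b6945b_al.Coarse
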