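import Pool.Agent.K1H2.KR.Fib

/-!
# The Knörr-Robinson conjecture and the classes of defect zero of the chain stabilisers

Let `k(H)` be the number of conjugacy classes and `ℓ₀(H)` the number of classes of `p`-defect zero of
`H`, i.e. of the classes of the elements `x` such that the order of `C_H(x)` is prime to `p`. We prove
a cancellation theorem for the classes of tuples in the stabilisers `G_σ` of the chains `σ` of
nontrivial `p`-subgroups of `G`: for every set `S` of tuples of elements of `G` stable under
conjugation (for instance the homomorphisms from a finitely generated group to `G`) and every set `F`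
of nontrivial subgroups of `G` stable under conjugation, the alternating sum over the classes of
chains `σ` of the number of `G_σ`-classes of the tuples in `S` with entries in `G_σ` for which the
Sylow `p`-subgroups of the centraliser in `G_σ` belong to `F` is zero. Consequences:

* `k(G) - χ₂(S_p(G), G) = ∑_σ (-1)^|σ| ℓ₀(G_σ)` for all finite groups, so that the Knörr-Robinson
  conjecture for `G` is the equality of this sum with the number `z_p(G)` of characters of defect
  zero; in the sum for `σ ≠ ∅` only elements which act without fixed points on the least member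
  of `σ` occur;
* if no element acts without fixed points on a nontrivial `p`-subgroup of `G`, then the conjecture
  for `G` says that `G` has as many classes as characters of `p`-defect zero;
* the conjecture for `G` says that the difference of the reduced equivariant Euler characteristics of
  the poset of nontrivial `p`-subgroups of `G` for the groups `ℤ × F_{n+1}` and `π₁(Σ_{n+1})` (`F_m`
  free of rank `m`, `Σ_g` the closed orientable surface of genus `g`) is divisible by `p ^ (N + 1)`
  if `n = p ^ N (p - 1)`, for all `N`;
* the conjecture for all finite groups is equivalent to the divisibility by `p` of the difference for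
  `ℤ × F_p` and `π₁(Σ_p)`, for all finite groups.

The starting library contains (`Pool/Agent/Y63/KR/Chi.lean`) the congruences for the surface groups
and the toggling of chains by a `p`-subgroup; the cancellation by Sylow subgroups of centralisers and
the congruences for `ℤ × F_m` are new, and the last statement uses the criterion modulo `p` of
`Pool/Agent/K1H2/KR/Rec.lean`.
-/

set_option autoImplicit false

open scoped Classical

namespace Pool.Agent.Results.MP_b6945b_al.DefectZeroClasses

open Pool.Agent.Y63.KR (KRC chi2 alternatingSum conjSub surfaceChi)
open Pool.Agent.Y63.AWC (numDefectZero)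
open Pool.Agent.K1H2.KR

/-- * `alternatingSum p G f` is `∑_σ (-1)^|σ| f(G_σ)` over the classes of chains of nontrivial
`p`-subgroups of `G` (the empty chain included), `G_σ` the stabiliser of `σ`;
* `Stable S`: the set `S` of tuples is stable under (simultaneous) conjugation;
* `IsSyl p T C`: `T` is a Sylow `p`-subgroup of `C`;
* `numTup S Q H`: the number of `H`-classes of the tuples in `S` with entries in `H` whose
  centraliser in `H` has the property `Q`;
* `numClassZero p H`: the number of classes of `p`-defect zero of `H`;
* `fibChi p m G = |G|⁻¹ ∑_φ (χ(S_p(G)^φ) - 1)`, `φ` in `Hom(ℤ × F_m, G)`, and `surfaceChi p g G` is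
  the same for `Hom(π₁(Σ_g), G)`. -/
theorem result (p : ℕ) [Fact p.Prime] :
    -- the cancellation theorem
    (∀ (G : Type) [Group G] [Finite G] (ι : Type) [Finite ι] (S : Set (ι → G)), Stable S →
      ∀ F : Set (Subgroup G), (∀ T ∈ F, ∀ x : G, conjSub x T ∈ F) → ⊥ ∉ F →
        alternatingSum p G (fun H => (numTup S (fun C => ∃ T ∈ F, IsSyl p T C) H : ℤ)) = 0) ∧
    -- only the classes of defect zero matter
    (∀ (G : Type) [Group G] [Finite G],
      (Nat.card (ConjClasses G) : ℚ) - chi2 p G =
        (alternatingSum p G (fun H => (numClassZero p H : ℤ)) : ℤ) ∧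
      (KRC p G ↔
        alternatingSum p G (fun H => (numClassZero p H : ℤ)) = (numDefectZero p G : ℤ))) ∧
    -- groups without fixed point free actions on `p`-subgroups
    (∀ (G : Type) [Group G] [Finite G],
      (∀ P : Subgroup G, IsPGroup p P → P ≠ ⊥ → ∀ x ∈ Subgroup.normalizer (P : Set G),
        ∃ y ∈ P, y ≠ 1 ∧ x * y = y * x) →
      (KRC p G ↔ numClassZero p G = numDefectZero p G)) ∧
    -- one group: the groups `ℤ × F_{n+1}` and `π₁(Σ_{n+1})`, `n = p ^ N (p - 1)`
    (∀ (G : Type) [Group G] [Finite G], KRC p G ↔ ∀ N : ℕ, ∃ c : ℤ,
      fibChi p (p ^ N * (p - 1) + 1) G - surfaceChi p (p ^ N * (p - 1) + 1) G =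
        (p : ℚ) ^ (N + 1) * c) ∧
    -- all groups: the groups `ℤ × F_p` and `π₁(Σ_p)`
    ((∀ (G : Type) [Group G] [Finite G], KRC p G) ↔
      ∀ (G : Type) [Group G] [Finite G], ∃ c : ℤ, fibChi p p G - surfaceChi p p G = p * c) := by
  refine ⟨?_, ?_, ?_, ?_, krc_fib⟩
  · intro G _ _ ι _ S hS F hF h1
    exact alt_zero hS F hF h1
  · intro G _ _
    refine ⟨?_, krc_zero⟩
    rw [← altK_zero]
    exact (Pool.Agent.Y63.KR.altSum_classes (p := p) (G := G)).symm
  · intro G _ _ h
    exact krc_fpf h
  · intro G _ _
    exact krc_fib_one

end Pool.Agent.Results.MP_b6945b_al.DefectZeroClasses
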