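import Pool.Agent.K1H2.KR.Fin

/-!
MP_b6945b_al (the Knörr–Robinson conjecture).

Notation. All definitions are those of the starting files, except the wreath products.
* `Pool.Agent.Y63.KR`: `chi2 p G` is `χ₂(S, G)` for the poset `S` of nontrivial `p`-subgroups of `G`,
  `KRC p G` says `χ₂(S, G) = k(G) - z_p(G)`; `numHom g G` is the number of homomorphisms from the
  fundamental group of the closed orientable surface of genus `g` to `G` (the number of solutions of
  `[a₁, b₁] ⋯ [a_g, b_g] = 1`).
* `Pool.Agent.Y63.AWC`: `numDefectZero p G` is `z_p(G)`, `numRegularClasses p G` is the number of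
  classes of `p`-regular elements, and `numWeights p G` is the number of `G`-classes of `p`-weights,
  so that Alperin's weight conjecture for `G` is `numRegularClasses p G = numWeights p G`.
* `Pool.Agent.R674.Ce`: `krDiff p G = k(G) - χ₂(S, G) - z_p(G)`, the difference of the two sides.
* `Pool.Agent.Y63.NV`: `Reduced p G`: `G` has no normal subgroup of index `p` and no nontrivial
  normal `p`-subgroup.
* `Pool.Agent.Q90.WR`: `realChainClasses p G` is the sum of the numbers of real classes of the
  stabilisers `G_σ`, over the `G`-classes of chains `σ` of nontrivial `p`-subgroups (the empty chain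
  included), and `numRealDefectZero p G` is the number of real-valued irreducible characters of
  `p`-defect zero.
* `Pool.Agent.K1H2.KR`: `WrC q G` is the wreath product of `G` with a cyclic group of order `q`, and
  `It q n G` is the iterated wreath product `(⋯(G ≀ C_q) ≀ ⋯) ≀ C_q` with `n` factors `C_q`.
-/

open scoped Classical

namespace Pool.Agent.Results.MP_b6945b_al.ModN

open Pool.Agent.K1H2.KR
open Pool.Agent.Y63.KR (KRC chi2 numHom)
open Pool.Agent.Y63.AWC (numDefectZero numRegularClasses numWeights)
open Pool.Agent.R674.Ce (krDiff)
open Pool.Agent.Y63.NV (Reduced)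
open Pool.Agent.Q90.WR (realChainClasses numRealDefectZero)

/-- **The Knörr–Robinson conjecture is equivalent to its reduction modulo any `N ≥ 2`.** Let `p` be a
prime.
1. One finite group `G`, any prime `q` (also `q = p`): `G` satisfies the conjecture if and only if,
   for the iterated wreath products of `G` with `C_q`, the two sides are congruent modulo `q`.
2. If `N ≥ 2`, then the conjecture holds for all finite groups if and only if its two sides are
   congruent modulo `N` for all finite groups, and also if and only if the two sides of Alperin's
   weight conjecture are congruent modulo `N` for all finite groups.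
3. If `q ≠ p` is a prime, it is enough to have the congruence modulo `q` for the finite groups
   without normal subgroups of index `p` and without nontrivial normal `p`-subgroups.
4. The conjecture holds for all finite groups if and only if
   `k(G) - χ₂(S, G) ≡ |Hom(Π_p, G)|/|G|` modulo `p` for all finite groups `G`, where `Π_p` is the
   fundamental group of the surface of genus `p`.
5. The conjecture holds for all finite groups if and only if, for all finite groups, the number of
   real classes of the stabilisers of the chains and the number of real-valued irreducible characters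
   of defect zero have the same parity. -/
theorem result (p : ℕ) [Fact p.Prime] :
    (∀ (q : ℕ) [Fact q.Prime] (G : Type) [Group G] [Finite G],
      KRC p G ↔ ∀ j : ℕ, ∃ c : ℤ, krDiff p (It q j G) = q * c) ∧
    (∀ N : ℕ, 2 ≤ N →
      ((∀ (G : Type) [Group G] [Finite G], KRC p G) ↔
        ∀ (G : Type) [Group G] [Finite G], ∃ c : ℤ, krDiff p G = N * c) ∧
      ((∀ (G : Type) [Group G] [Finite G], KRC p G) ↔
        ∀ (G : Type) [Group G] [Finite G], numRegularClasses p G ≡ numWeights p G [MOD N])) ∧
    (∀ (q : ℕ) [Fact q.Prime], q ≠ p →
      ((∀ (G : Type) [Group G] [Finite G], KRC p G) ↔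
        ∀ (G : Type) [Group G] [Finite G], Reduced p G → ∃ c : ℤ, krDiff p G = q * c)) ∧
    ((∀ (G : Type) [Group G] [Finite G], KRC p G) ↔
      ∀ (G : Type) [Group G] [Finite G], ∃ c : ℤ,
        ((Nat.card (ConjClasses G) : ℚ) - chi2 p G) - (numHom p G : ℚ) / (Nat.card G : ℚ) =
          p * c) ∧
    ((∀ (G : Type) [Group G] [Finite G], KRC p G) ↔
      ∀ (G : Type) [Group G] [Finite G], realChainClasses p G ≡ numRealDefectZero p G [MOD 2]) :=
  ⟨fun q _ G _ _ => krc_it q p G, fun N hN => ⟨krc_mod N hN p, krc_awc_mod N hN⟩,
    fun q _ hpq => krc_reduced q hpq, krc_surface, krc_parity⟩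

end Pool.Agent.Results.MP_b6945b_al.ModN
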